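import Pool.Agent.Run7.h513.pate.Iface

set_option autoImplicit false

/-!
Piece P3 of helper513's project on Pate's inequality (S01961): the Fischer form of products of linear
forms is a permanent.
-/

namespace Pool.Agent.Run7.h713.Pate

open MvPolynomial Finset Pool.Agent.Run7.h513.Pate
open scoped ComplexConjugate Nat

theorem pderiv_lin {r : ℕ} (l : Fin r) (u : Fin r → ℂ) : pderiv l (lin u) = C (u l) := by
  classical
  unfold lin
  rw [map_sum, Finset.sum_eq_single l]
  · rw [pderiv_C_mul, pderiv_X_self, mul_one]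
  · intro b _ hb
    rw [pderiv_C_mul, pderiv_X_of_ne hb, mul_zero]
  · intro h
    exact absurd (Finset.mem_univ l) h

theorem pderiv_prod {r : ℕ} (l : Fin r) : ∀ (k : ℕ) (f : Fin (k + 1) → MvPolynomial (Fin r) ℂ),
    pderiv l (∏ j, f j) = ∑ j, pderiv l (f j) * ∏ i, f (j.succAbove i) := by
  intro k
  induction k with
  | zero =>
    intro f
    simp
  | succ k ih =>
    intro f
    rw [Fin.prod_univ_succ, Derivation.leibniz, ih (fun j => f j.succ),
      Fin.sum_univ_succ (fun j => pderiv l (f j) * ∏ i, f (j.succAbove i))]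
    simp only [smul_eq_mul, Fin.succAbove_zero]
    rw [add_comm, mul_comm (∏ i : Fin (k + 1), f i.succ)]
    congr 1
    · rw [Finset.mul_sum]
      refine Finset.sum_congr rfl fun j _ => ?_
      rw [Fin.prod_univ_succ (fun i => f (j.succ.succAbove i))]
      simp only [Fin.succ_succAbove_zero, Fin.succ_succAbove_succ]
      ring

theorem t_P3 : PieceP1 → PieceP2 → PieceP3 := by
  intro h1 h2 k
  induction k with
  | zero =>
    intro r u v
    have h := (h1 r).2.2.2.2.2
    simpa [Matrix.permanent] using h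
  | succ k ih =>
    intro r u v
    obtain ⟨hX, haddl, haddr, hCl, hCr, _⟩ := h1 r
    let aL : MvPolynomial (Fin r) ℂ → (MvPolynomial (Fin r) ℂ →+ ℂ) := fun R =>
      AddMonoidHom.mk' (fun P => fi P R) (fun P Q => haddl P Q R)
    let aR : MvPolynomial (Fin r) ℂ → (MvPolynomial (Fin r) ℂ →+ ℂ) := fun P =>
      AddMonoidHom.mk' (fun R => fi P R) (fun Q R => haddr P Q R)
    have hsl : ∀ (s : Finset (Fin r)) (g : Fin r → MvPolynomial (Fin r) ℂ) (R : MvPolynomial (Fin r) ℂ),
        fi (∑ i ∈ s, g i) R = ∑ i ∈ s, fi (g i) R := fun s g R => map_sum (aL R) g s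
    have hsr : ∀ (s : Finset (Fin (k + 1))) (g : Fin (k + 1) → MvPolynomial (Fin r) ℂ)
        (P : MvPolynomial (Fin r) ℂ),
        fi P (∑ i ∈ s, g i) = ∑ i ∈ s, fi P (g i) := fun s g P => map_sum (aR P) g s
    have e1 : fi (∏ i, lin (u i)) (∏ j, lin (v j)) =
        ∑ l, conj (u 0 l) * fi (∏ i : Fin k, lin (u i.succ)) (pderiv l (∏ j, lin (v j))) := by
      rw [Fin.prod_univ_succ (fun i => lin (u i))]
      have e2 : lin (u 0) * ∏ i : Fin k, lin (u i.succ) =
          ∑ l, C (u 0 l) * (X l * ∏ i : Fin k, lin (u i.succ)) := by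
        conv_lhs => rw [lin]
        rw [Finset.sum_mul]
        refine Finset.sum_congr rfl fun l _ => by ring
      rw [e2, hsl]
      refine Finset.sum_congr rfl fun l _ => ?_
      rw [hCl, hX]
    have e3 : ∀ l, fi (∏ i : Fin k, lin (u i.succ)) (pderiv l (∏ j, lin (v j))) =
        ∑ j, v j l * fi (∏ i : Fin k, lin (u i.succ)) (∏ i : Fin k, lin (v (j.succAbove i))) := by
      intro l
      rw [pderiv_prod, hsr]
      refine Finset.sum_congr rfl fun j _ => ?_
      rw [pderiv_lin, hCr]
    rw [e1, h2]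
    simp only [e3, Finset.mul_sum]
    rw [Finset.sum_comm]
    refine Finset.sum_congr rfl fun j _ => ?_
    rw [ih r (fun i => u i.succ) (fun i => v (j.succAbove i)), Matrix.of_apply, Finset.sum_mul]
    refine Finset.sum_congr rfl fun l _ => ?_
    rw [mul_assoc]
    rfl

end Pool.Agent.Run7.h713.Pate
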